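import Pool.Agent.Y382.PAR.Stm

/-!
# Parities of complete mappings: subgroups of groups of odd order
-/

set_option autoImplicit false

namespace Pool.Agent.Y329.PAR

open Pool.Agent.Y382.PAR

universe u

theorem sgn_ofSubtype {G : Type u} [Group G] [Finite G] (H : Subgroup G)
    [DecidablePred (· ∈ H)] (f : Equiv.Perm H) :
    sgn (Equiv.Perm.ofSubtype f : Equiv.Perm G) = sgn f := by
  classical
  have := Fintype.ofFinite G
  rw [sgn_eq, sgn_eq, Equiv.Perm.sign_ofSubtype]

theorem sq_bij {G : Type u} [Group G] [Finite G] (hodd : Odd (Nat.card G)) :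
    Function.Bijective fun x : G => x * x := by
  have hc : (Nat.card G).Coprime 2 := Nat.coprime_two_right.2 hodd
  have := Nat.Coprime.pow_left_bijective (G := G) hc
  simpa only [pow_two] using this

theorem t_SUB : Pool.Agent.Y382.PAR.S_SUB.{u} := by
  intro G _ _ H hodd hA ε δ
  classical
  have hoddH : Odd (Nat.card H) := Odd.of_dvd_nat hodd (Subgroup.card_subgroup_dvd_card H)
  have hsq : ∀ x : G, x * x ∈ H → x ∈ H := by
    intro x hx
    have hox : Odd (orderOf x) := Odd.of_dvd_nat hodd (orderOf_dvd_natCard x)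
    have hcop : Nat.Coprime (orderOf x) 2 := Nat.coprime_two_right.2 hox
    obtain ⟨k, hk⟩ := exists_pow_eq_self_of_coprime hcop.symm
    rw [← hk, pow_two]
    exact H.pow_mem hx k
  let sG : Equiv.Perm G := Equiv.ofBijective _ (sq_bij hodd)
  let sH : Equiv.Perm H := Equiv.ofBijective _ (sq_bij hoddH)
  have hsG : ∀ x, sG x = x * x := fun x => rfl
  have hsH : ∀ x, sH x = x * x := fun x => rfl
  obtain ⟨ψ, Ψ, hψ, h1, h2⟩ := hA ε (δ * (sgn sH * sgn sG))
  refine ⟨Equiv.Perm.ofSubtype ψ, Equiv.Perm.ofSubtype (Ψ * sH⁻¹) * sG, ?_, ?_, ?_⟩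
  · intro x
    rw [Equiv.Perm.mul_apply, hsG]
    by_cases hx : x ∈ H
    · have hxx : x * x ∈ H := H.mul_mem hx hx
      rw [Equiv.Perm.ofSubtype_apply_of_mem _ hxx, Equiv.Perm.ofSubtype_apply_of_mem _ hx,
        Equiv.Perm.mul_apply]
      have h3 : (⟨x * x, hxx⟩ : H) = sH ⟨x, hx⟩ := rfl
      have h4 : sH⁻¹ (sH ⟨x, hx⟩) = ⟨x, hx⟩ := sH.symm_apply_apply _
      rw [h3, h4, hψ]
      rfl
    · have hxx : x * x ∉ H := fun h => hx (hsq x h)
      rw [Equiv.Perm.ofSubtype_apply_of_not_mem _ hxx, Equiv.Perm.ofSubtype_apply_of_not_mem _ hx]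
  · rw [sgn_ofSubtype, h1]
  · rw [sgn_mul, sgn_ofSubtype, sgn_mul, sgn_inv, h2]
    have e1 : sgn sH * sgn sH = 1 := Int.units_mul_self _
    have e2 : sgn sG * sgn sG = 1 := Int.units_mul_self _
    calc δ * (sgn sH * sgn sG) * sgn sH * sgn sG
        = δ * (sgn sH * sgn sH) * (sgn sG * sgn sG) := by
          simp only [mul_assoc, mul_comm, mul_left_comm]
      _ = δ := by rw [e1, e2, mul_one, mul_one]

end Pool.Agent.Y329.PAR
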